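import Mathlib

/-! Automatic groups: synchronous two-tape automata on padded words. -/

namespace Pool.Agent.MP_6674cc_al

/-- The padded two-tape word of a pair of words; `none` is the padding symbol. -/
def conv {X : Type} (u v : List X) : List (Option X × Option X) :=
  (List.range (max u.length v.length)).map fun i => (u[i]?, v[i]?)

/-- The group element represented by a word in the letters of `A`. -/
def evalWord {G : Type} [Group G] {A : Finset G} (w : List A) : G := (w.map Subtype.val).prod

/-- `G` has an automatic structure. -/
def IsAutomatic (G : Type) [Group G] : Prop :=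
  ∃ (A : Finset G) (L : Language A),
    (∀ a ∈ A, a⁻¹ ∈ A) ∧ Subgroup.closure (A : Set G) = ⊤ ∧ L.IsRegular ∧
    (∀ g : G, ∃ w ∈ L, evalWord w = g) ∧
    ∀ a : G, (a = 1 ∨ a ∈ A) →
      Language.IsRegular
        ({p | ∃ u ∈ L, ∃ v ∈ L, p = conv u v ∧ evalWord u * a = evalWord v} :
          Language (Option A × Option A))

end Pool.Agent.MP_6674cc_al
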