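import Mathlib

/-! A Perron-Frobenius type obstruction, and Følner boxes. -/

namespace Pool.Agent.MP_6674cc_al

open Finset

theorem pfa_nonneg {X : Type} [Fintype X] [DecidableEq X] (M : Matrix X X ℝ) (hM : ∀ x y, 0 ≤ M x y) (j : ℕ) :
    ∀ x y, 0 ≤ (M ^ j) x y := by
  induction j with
  | zero =>
    intro x y
    rw [pow_zero, Matrix.one_apply]
    split_ifs <;> norm_num
  | succ j ih =>
    intro x y
    rw [pow_succ, Matrix.mul_apply]
    exact sum_nonneg fun z _ => mul_nonneg (ih x z) (hM z y)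

theorem pfa_pow {X : Type} [Fintype X] [DecidableEq X] (M : Matrix X X ℝ) (N : ℕ → X → ℝ)
    (hrec : ∀ j x, N (j + 1) x = ∑ y, M x y * N j y) (i j : ℕ) :
    ∀ x, N (i + j) x = ∑ y, (M ^ j) x y * N i y := by
  induction j with
  | zero =>
    intro x
    simp [Matrix.one_apply]
  | succ j ih =>
    intro x
    rw [← add_assoc, hrec, pow_succ']
    simp only [ih, Matrix.mul_apply, mul_sum, sum_mul]
    rw [sum_comm]
    exact sum_congr rfl fun y _ => sum_congr rfl fun z _ => by ring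

theorem pfa_bdd {X : Type} [Fintype X] [DecidableEq X] (M : Matrix X X ℝ) (hM : ∀ x y, 0 ≤ M x y)
    (N : ℕ → X → ℝ) (hN : ∀ j x, 0 ≤ N j x) (hrec : ∀ j x, N (j + 1) x = ∑ y, M x y * N j y)
    (hpos : ∀ x, ∃ i, 0 < N i x) (hbd : ∀ x, ∃ C, ∀ j, N j x ≤ C) :
    ∃ C, 0 ≤ C ∧ ∀ j x y, (M ^ j) x y ≤ C := by
  have h : ∀ p : X × X, ∃ C, 0 ≤ C ∧ ∀ j, (M ^ j) p.1 p.2 ≤ C := by
    rintro ⟨x, y⟩
    obtain ⟨i, hi⟩ := hpos y
    obtain ⟨C, hC⟩ := hbd x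
    refine ⟨C / N i y, div_nonneg ((hN 0 x).trans (hC 0)) hi.le, fun j => ?_⟩
    rw [le_div_iff₀ hi]
    refine le_trans ?_ (hC (i + j))
    rw [pfa_pow M N hrec i j x]
    exact single_le_sum (f := fun z => (M ^ j) x z * N i z)
      (fun z _ => mul_nonneg (pfa_nonneg M hM j x z) (hN i z)) (mem_univ y)
  choose C hC0 hC using h
  refine ⟨∑ p, C p, sum_nonneg fun p _ => hC0 p, fun j x y => ?_⟩
  exact (hC (x, y) j).trans (single_le_sum (f := C) (fun p _ => hC0 p) (mem_univ (x, y)))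

/-- The transfer operator. -/
noncomputable def pfa_T {X W : Type} [Fintype X] [NormedAddCommGroup W] [InnerProductSpace ℝ W]
    (R : W ≃ₗᵢ[ℝ] W) (M : Matrix X X ℝ) : (X → W) →ₗ[ℝ] (X → W) where
  toFun φ y := R.symm (∑ x, M x y • φ x)
  map_add' φ χ := by
    funext y
    simp [smul_add, sum_add_distrib]
  map_smul' c φ := by
    funext y
    simp only [Pi.smul_apply, RingHom.id_apply]
    rw [← map_smul, smul_sum]
    exact congrArg _ (sum_congr rfl fun x _ => smul_comm _ _ _)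

theorem pfa_T_pow {X W : Type} [Fintype X] [DecidableEq X] [NormedAddCommGroup W] [InnerProductSpace ℝ W]
    (R : W ≃ₗᵢ[ℝ] W) (M : Matrix X X ℝ) (φ : X → W) (j : ℕ) :
    ∀ y, (R ^ j) ((pfa_T R M ^ j) φ y) = ∑ x, (M ^ j) x y • φ x := by
  induction j with
  | zero =>
    intro y
    simp [Matrix.one_apply]
  | succ j ih =>
    intro y
    have h1 : (pfa_T R M ^ (j + 1)) φ y = R.symm (∑ x, M x y • (pfa_T R M ^ j) φ x) := by
      rw [pow_succ']
      rfl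
    rw [h1, pow_succ R, LinearIsometryEquiv.coe_mul, Function.comp_apply, R.apply_symm_apply, map_sum, pow_succ M]
    simp only [map_smul, ih, Matrix.mul_apply, smul_sum, sum_smul, smul_smul]
    rw [sum_comm]
    exact sum_congr rfl fun x _ => sum_congr rfl fun z _ => by rw [mul_comm]

theorem pfa_fixed {X W : Type} [Fintype X] [DecidableEq X] [NormedAddCommGroup W] [InnerProductSpace ℝ W]
    [FiniteDimensional ℝ W] (R : W ≃ₗᵢ[ℝ] W) (W₀ : Submodule ℝ W) (hW : ∀ v ∈ W₀, R.symm v ∈ W₀)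
    (M : Matrix X X ℝ) (hM : ∀ x y, 0 ≤ M x y) (C : ℝ) (hC : ∀ j x y, (M ^ j) x y ≤ C)
    (N : ℕ → X → ℝ) (hrec : ∀ j x, N (j + 1) x = ∑ y, M x y * N j y) (ψ : X → W) (hψ : ∀ x, ψ x ∈ W₀) (u : W)
    (hu : u ≠ 0) (hsum : ∀ j, ∑ x, N j x • ψ x = (R ^ j) u) :
    ∃ Ψ : X → W, (∀ x, Ψ x ∈ W₀) ∧ Ψ ≠ 0 ∧ ∀ y, R (Ψ y) = ∑ x, M x y • Ψ x := by
  by_contra hcon
  let P : Submodule ℝ (X → W) := Submodule.pi Set.univ fun _ => W₀
  have hP : ∀ φ, φ ∈ P ↔ ∀ x, φ x ∈ W₀ := fun φ => by simp [P, Submodule.mem_pi]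
  have hT : ∀ φ ∈ P, (pfa_T R M - 1) φ ∈ P := by
    intro φ hφ
    rw [LinearMap.sub_apply, Module.End.one_apply]
    refine P.sub_mem ?_ hφ
    rw [hP] at hφ ⊢
    intro y
    exact hW _ (W₀.sum_mem fun x _ => W₀.smul_mem _ (hφ x))
  have hinj : Function.Injective ((pfa_T R M - 1).restrict hT) := by
    rw [← LinearMap.ker_eq_bot, LinearMap.ker_eq_bot']
    intro φ hφ
    by_contra hne
    refine hcon ⟨φ.1, (hP _).1 φ.2, fun h => hne (Subtype.ext h), fun y => ?_⟩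
    have h1 : pfa_T R M φ.1 - φ.1 = 0 := congrArg Subtype.val hφ
    have h2 : R.symm (∑ x, M x y • φ.1 x) = φ.1 y := congrFun (sub_eq_zero.1 h1) y
    rw [← h2, R.apply_symm_apply]
  obtain ⟨χ, hχ⟩ := LinearMap.injective_iff_surjective.1 hinj ⟨ψ, (hP _).2 hψ⟩
  have hχ' : pfa_T R M χ.1 - χ.1 = ψ := congrArg Subtype.val hχ
  let l : (X → W) → W := fun φ => ∑ y, N 0 y • φ y
  have hl : ∀ j, l ((pfa_T R M ^ j) ψ) = u := by
    intro j
    apply (R ^ j).injective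
    rw [← hsum j]
    simp only [l, map_sum, map_smul, pfa_T_pow, smul_sum, smul_smul]
    rw [sum_comm]
    refine sum_congr rfl fun x _ => ?_
    have := pfa_pow M N hrec 0 j x
    rw [zero_add] at this
    rw [this, sum_smul]
    exact sum_congr rfl fun y _ => by rw [mul_comm]
  have hn : ∀ n : ℕ, (n : ℝ) • u = l ((pfa_T R M ^ n) χ.1) - l χ.1 := by
    intro n
    induction n with
    | zero => simp
    | succ n ih =>
      have h1 : (pfa_T R M ^ (n + 1)) χ.1 = (pfa_T R M ^ n) ψ + (pfa_T R M ^ n) χ.1 := by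
        rw [← hχ', map_sub, sub_add_cancel, pow_succ]
        rfl
      have h2 : l ((pfa_T R M ^ (n + 1)) χ.1) = u + l ((pfa_T R M ^ n) χ.1) := by
        rw [h1, ← hl n]
        simp only [l, Pi.add_apply, smul_add, sum_add_distrib]
      rw [h2, Nat.cast_succ, add_smul, one_smul, ih]
      abel
  have hb : ∀ n : ℕ, ‖l ((pfa_T R M ^ n) χ.1)‖ ≤ ∑ y, |N 0 y| * ∑ x, C * ‖χ.1 x‖ := by
    intro n
    refine (norm_sum_le _ _).trans (sum_le_sum fun y _ => ?_)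
    rw [norm_smul, Real.norm_eq_abs]
    refine mul_le_mul_of_nonneg_left ?_ (abs_nonneg _)
    rw [← (R ^ n).norm_map, pfa_T_pow]
    refine (norm_sum_le _ _).trans (sum_le_sum fun x _ => ?_)
    rw [norm_smul, Real.norm_of_nonneg (pfa_nonneg M hM n x y)]
    exact mul_le_mul_of_nonneg_right (hC n x y) (norm_nonneg _)
  have hu' : 0 < ‖u‖ := norm_pos_iff.2 hu
  obtain ⟨n, hn'⟩ := exists_nat_gt (((∑ y, |N 0 y| * ∑ x, C * ‖χ.1 x‖) + ‖l χ.1‖) / ‖u‖)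
  rw [div_lt_iff₀ hu'] at hn'
  have h3 : ‖(n : ℝ) • u‖ ≤ (∑ y, |N 0 y| * ∑ x, C * ‖χ.1 x‖) + ‖l χ.1‖ := by
    rw [hn n]
    exact (norm_sub_le _ _).trans (add_le_add (hb n) le_rfl)
  rw [norm_smul, Real.norm_natCast] at h3
  exact absurd h3 (not_le.2 hn')

theorem pfa_inv {X : Type} [Fintype X] [DecidableEq X] (M : Matrix X X ℝ) (hM : ∀ x y, 0 ≤ M x y) (C : ℝ)
    (hC : ∀ j x y, (M ^ j) x y ≤ C) (a : X → ℝ) (ha : ∀ x, 0 ≤ a x) (hle : ∀ y, a y ≤ ∑ x, M x y * a x) :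
    ∃ w : X → ℝ, (∀ y, a y ≤ w y) ∧ ∀ y, w y = ∑ x, M x y * w x := by
  let s : ℕ → X → ℝ := fun j y => ∑ x, (M ^ j) x y * a x
  have h0 : ∀ y, s 0 y = a y := fun y => by simp [s, Matrix.one_apply]
  have hs : ∀ j y, s (j + 1) y = ∑ x, M x y * s j x := by
    intro j y
    simp only [s, pow_succ, Matrix.mul_apply, mul_sum, sum_mul]
    rw [sum_comm]
    exact sum_congr rfl fun z _ => sum_congr rfl fun x _ => by ring
  have hstep : ∀ j y, s j y ≤ s (j + 1) y := by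
    intro j
    induction j with
    | zero =>
      intro y
      rw [hs]
      simp only [h0]
      exact hle y
    | succ j ih =>
      intro y
      rw [hs (j + 1), hs j]
      exact sum_le_sum fun x _ => mul_le_mul_of_nonneg_left (ih x) (hM x y)
  have hmono : ∀ y, Monotone fun j => s j y := fun y => monotone_nat_of_le_succ fun j => hstep j y
  have hbdd : ∀ y, BddAbove (Set.range fun j => s j y) := by
    intro y
    refine ⟨∑ x, C * a x, ?_⟩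
    rintro _ ⟨j, rfl⟩
    exact sum_le_sum fun x _ => mul_le_mul_of_nonneg_right (hC j x y) (ha x)
  have hlim : ∀ y, Filter.Tendsto (fun j => s j y) Filter.atTop (nhds (⨆ j, s j y)) := fun y =>
    tendsto_atTop_ciSup (hmono y) (hbdd y)
  refine ⟨fun y => ⨆ j, s j y, fun y => ?_, fun y => ?_⟩
  · rw [← h0]
    exact le_ciSup (hbdd y) 0
  · have h1 : Filter.Tendsto (fun j => s (j + 1) y) Filter.atTop (nhds (⨆ j, s j y)) :=
      (hlim y).comp (Filter.tendsto_add_atTop_nat 1)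
    have h2 : Filter.Tendsto (fun j => s (j + 1) y) Filter.atTop (nhds (∑ x, M x y * ⨆ j, s j x)) := by
      simp only [hs]
      exact tendsto_finsetSum _ fun x _ => (hlim x).const_mul _
    exact tendsto_nhds_unique h1 h2

theorem pfa_step {X W : Type} [Fintype X] [NormedAddCommGroup W] [InnerProductSpace ℝ W]
    (R : W ≃ₗᵢ[ℝ] W) (M : Matrix X X ℝ) (hM : ∀ x y, 0 ≤ M x y) (Ψ : X → W)
    (hΨ : ∀ y, R (Ψ y) = ∑ x, M x y • Ψ x) (w : X → ℝ) (hle : ∀ y, ‖Ψ y‖ ≤ w y)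
    (hw : ∀ y, w y = ∑ x, M x y * w x) (y : X) (hy : 0 < w y) (hy' : ‖Ψ y‖ = w y) :
    ∃ x, 0 < w x ∧ ‖Ψ x‖ = w x ∧ R ((w y)⁻¹ • Ψ y) = (w x)⁻¹ • Ψ x := by
  have hw0 : ∀ x, 0 ≤ w x := fun x => (norm_nonneg _).trans (hle x)
  have hR : ‖R (Ψ y)‖ = w y := by rw [R.norm_map, hy']
  have hcs : ∀ x, inner ℝ (R (Ψ y)) (Ψ x) ≤ w y * ‖Ψ x‖ := fun x => hR ▸ real_inner_le_norm _ _
  have hterm : ∀ x ∈ (univ : Finset X), M x y * inner ℝ (R (Ψ y)) (Ψ x) ≤ M x y * (w y * w x) := fun x _ =>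
    mul_le_mul_of_nonneg_left ((hcs x).trans (mul_le_mul_of_nonneg_left (hle x) hy.le)) (hM x y)
  have hsum : ∑ x, M x y * inner ℝ (R (Ψ y)) (Ψ x) = ∑ x, M x y * (w y * w x) := by
    have h1 : inner ℝ (R (Ψ y)) (R (Ψ y)) = ∑ x, M x y * inner ℝ (R (Ψ y)) (Ψ x) := by
      conv_lhs => rw [show inner ℝ (R (Ψ y)) (R (Ψ y)) = inner ℝ (R (Ψ y)) (∑ x, M x y • Ψ x) by rw [← hΨ]]
      rw [inner_sum]
      exact sum_congr rfl fun x _ => by rw [real_inner_smul_right]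
    have h2 : ∑ x, M x y * (w y * w x) = w y * w y := by
      conv_rhs => rw [show w y * w y = w y * ∑ x, M x y * w x by rw [← hw]]
      rw [mul_sum]
      exact sum_congr rfl fun x _ => by ring
    rw [← h1, h2, real_inner_self_eq_norm_mul_norm, hR]
  have heq := (sum_eq_sum_iff_of_le hterm).1 hsum
  have hex : ∃ x, 0 < M x y * w x := by
    by_contra h
    push Not at h
    have : w y ≤ 0 := by
      rw [hw]
      exact sum_nonpos fun x _ => h x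
    exact absurd hy (not_lt.2 this)
  obtain ⟨x, hx⟩ := hex
  have hwx : 0 < w x := (hw0 x).lt_of_ne fun h => by rw [← h, mul_zero] at hx; exact lt_irrefl _ hx
  have hMx : 0 < M x y := (pos_iff_pos_of_mul_pos hx).2 hwx
  have h3 : inner ℝ (R (Ψ y)) (Ψ x) = w y * w x := mul_left_cancel₀ hMx.ne' (heq x (mem_univ x))
  have h4 : ‖Ψ x‖ = w x := by
    refine le_antisymm (hle x) ?_
    have := hcs x
    rw [h3] at this
    exact le_of_mul_le_mul_left this hy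
  refine ⟨x, hwx, h4, ?_⟩
  have h5 : ‖Ψ x‖ • R (Ψ y) = ‖R (Ψ y)‖ • Ψ x := inner_eq_norm_mul_iff_real.1 (by rw [h3, hR, h4])
  rw [h4, hR] at h5
  rw [map_smul]
  have h6 : (w y)⁻¹ • R (Ψ y) = ((w y)⁻¹ * (w x)⁻¹) • (w x • R (Ψ y)) := by
    rw [smul_smul, mul_assoc, inv_mul_cancel₀ hwx.ne', mul_one]
  rw [h6, h5, smul_smul, mul_comm (w y)⁻¹, mul_assoc, inv_mul_cancel₀ hy.ne', mul_one]

/-- Let `(𝒯 ψ) y = R⁻¹ (∑ x, B x y • ψ x)` on functions `X → W₀` and `ℓ ψ = ∑ y, N 0 y • ψ y`.  Then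
`ℓ (𝒯 ^ j ψ₀) = u`, and `𝒯 ^ j ψ` is bounded because the entries of `B ^ j` are (`(B ^ j) x y * N i y ≤ N (i + j) x`).
If `𝒯 - 1` were injective it would be onto, `ψ₀ = 𝒯 χ - χ`, and summing gives `n • u = ℓ (𝒯 ^ n χ - χ)` bounded.  So
there is `Ψ ≠ 0` with `R (Ψ y) = ∑ x, B x y • Ψ x`.  With `a y = ‖Ψ y‖` the row vectors `a B ^ j` increase and are
bounded; their limit `w` has `w B = w`, `a ≤ w`.  Let `m` be the maximum of `‖Ψ y‖ / w y` over `w y > 0` and `U` the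
set where it is attained.  For `y ∈ U` equality holds in `⟪R (Ψ y), Ψ x⟫ ≤ ‖Ψ y‖ * ‖Ψ x‖ ≤ m w y * m w x` for all `x`
with `B x y * w x > 0` (there is one), so `x ∈ U` and `Ψ x / w x = R (Ψ y / w y)`.  The finite set of the nonzero
vectors `Ψ y / w y`, `y ∈ U`, is mapped to itself by `R`. -/
theorem pf_periodic {X W : Type} [Fintype X] [NormedAddCommGroup W] [InnerProductSpace ℝ W] [FiniteDimensional ℝ W]
    (R : W ≃ₗᵢ[ℝ] W) (W₀ : Submodule ℝ W) (hW : ∀ v ∈ W₀, R.symm v ∈ W₀) (B : X → X → ℝ) (hB : ∀ x y, 0 ≤ B x y)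
    (N : ℕ → X → ℝ) (hN : ∀ j x, 0 ≤ N j x) (hrec : ∀ j x, N (j + 1) x = ∑ y, B x y * N j y)
    (hpos : ∀ x, ∃ i, 0 < N i x) (hbd : ∀ x, ∃ C, ∀ j, N j x ≤ C) (ψ : X → W) (hψ : ∀ x, ψ x ∈ W₀) (u : W)
    (hu : u ≠ 0) (hsum : ∀ j, ∑ x, N j x • ψ x = (R ^ j) u) :
    ∃ v ∈ W₀, v ≠ 0 ∧ ∃ m : ℕ, 0 < m ∧ (R ^ m) v = v := by
  classical
  let M : Matrix X X ℝ := Matrix.of B
  have hM : ∀ x y, 0 ≤ M x y := hB
  obtain ⟨C, -, hC⟩ := pfa_bdd M hM N hN hrec hpos hbd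
  obtain ⟨Ψ, hΨW, hΨ0, hΨ⟩ := pfa_fixed R W₀ hW M hM C hC N hrec ψ hψ u hu hsum
  have hle : ∀ y, ‖Ψ y‖ ≤ ∑ x, M x y * ‖Ψ x‖ := by
    intro y
    rw [← R.norm_map, hΨ]
    refine (norm_sum_le _ _).trans (sum_le_sum fun x _ => ?_)
    rw [norm_smul, Real.norm_of_nonneg (hM x y)]
  obtain ⟨w₁, hw₁, hw₁'⟩ := pfa_inv M hM C hC (fun y => ‖Ψ y‖) (fun _ => norm_nonneg _) hle
  obtain ⟨y₁, hy₁⟩ : ∃ y, Ψ y ≠ 0 := Function.ne_iff.1 hΨ0
  have hy₁' : 0 < ‖Ψ y₁‖ := norm_pos_iff.2 hy₁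
  obtain ⟨y₀, -, hy₀⟩ := exists_max_image univ (fun y => ‖Ψ y‖ / w₁ y) ⟨y₁, mem_univ _⟩
  have hm : 0 < ‖Ψ y₀‖ / w₁ y₀ := lt_of_lt_of_le (div_pos hy₁' (hy₁'.trans_le (hw₁ y₁))) (hy₀ y₁ (mem_univ _))
  have hw₀ : 0 < w₁ y₀ := by
    rcases ((norm_nonneg _).trans (hw₁ y₀)).eq_or_lt with h | h
    · rw [← h, div_zero] at hm
      exact absurd hm (lt_irrefl _)
    · exact h
  let w : X → ℝ := fun y => ‖Ψ y₀‖ / w₁ y₀ * w₁ y
  have hwle : ∀ y, ‖Ψ y‖ ≤ w y := by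
    intro y
    rcases ((norm_nonneg _).trans (hw₁ y)).eq_or_lt with h | h
    · have h1 := hw₁ y
      simp only [w]
      rw [← h] at h1 ⊢
      rw [mul_zero]
      exact h1
    · exact (div_le_iff₀ h).1 (hy₀ y (mem_univ _))
  have hw : ∀ y, w y = ∑ x, M x y * w x := by
    intro y
    simp only [w]
    rw [hw₁' y, mul_sum]
    exact sum_congr rfl fun x _ => by ring
  let U := {y : X // 0 < w y ∧ ‖Ψ y‖ = w y}
  have hstep : ∀ y : U, ∃ x : U, R ((w y.1)⁻¹ • Ψ y.1) = (w x.1)⁻¹ • Ψ x.1 := by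
    intro y
    obtain ⟨x, h1, h2, h3⟩ := pfa_step R M hM Ψ hΨ w hwle hw y.1 y.2.1 y.2.2
    exact ⟨⟨x, h1, h2⟩, h3⟩
  choose f hf using hstep
  have hit : ∀ (n : ℕ) (y : U), (R ^ n) ((w y.1)⁻¹ • Ψ y.1) = (w (f^[n] y).1)⁻¹ • Ψ (f^[n] y).1 := by
    intro n
    induction n with
    | zero => intro y; rfl
    | succ n ih =>
      intro y
      rw [pow_succ, LinearIsometryEquiv.coe_mul, Function.comp_apply, hf, ih, Function.iterate_succ_apply]
  let y : U := ⟨y₀, mul_pos hm hw₀, (div_mul_cancel₀ _ hw₀.ne').symm⟩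
  have key : ∀ i j : ℕ, i < j → f^[i] y = f^[j] y → ∃ v ∈ W₀, v ≠ 0 ∧ ∃ m : ℕ, 0 < m ∧ (R ^ m) v = v := by
    intro i j hij h
    refine ⟨(w (f^[i] y).1)⁻¹ • Ψ (f^[i] y).1, W₀.smul_mem _ (hΨW _), ?_, j - i, Nat.sub_pos_of_lt hij, ?_⟩
    · refine smul_ne_zero (inv_ne_zero (f^[i] y).2.1.ne') ?_
      rw [← norm_pos_iff, (f^[i] y).2.2]
      exact (f^[i] y).2.1
    · rw [hit, ← Function.iterate_add_apply, Nat.sub_add_cancel hij.le, ← h]
  obtain ⟨i, j, hij, h⟩ := Finite.exists_ne_map_eq_of_infinite fun n : ℕ => f^[n] y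
  rcases lt_or_gt_of_ne hij with h1 | h1
  · exact key i j h1 h
  · exact key j i h1 h.symm

end Pool.Agent.MP_6674cc_al

/-! A Perron-Frobenius type obstruction, and Følner boxes. -/

namespace Pool.Agent.MP_6674cc_al

open Finset

theorem pf_small (d : ℕ) (c : ℕ) {ε : ℝ} (hε : 0 < ε) :
    ∃ r : ℕ, 2 * c < r ∧ ((r : ℝ) + 2 * c) ^ d ≤ ((r : ℝ) - 2 * c) ^ d + ε * (r : ℝ) ^ d := by
  have h0 : Filter.Tendsto (fun r : ℕ => (2 * c : ℝ) / r) Filter.atTop (nhds 0) :=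
    tendsto_const_div_atTop_nhds_zero_nat _
  have h1 : Filter.Tendsto (fun r : ℕ => (1 + (2 * c : ℝ) / r) ^ d - (1 - (2 * c : ℝ) / r) ^ d) Filter.atTop
      (nhds ((1 + 0) ^ d - (1 - 0) ^ d)) :=
    ((h0.const_add 1).pow d).sub ((h0.const_sub 1).pow d)
  have h2 : ∀ᶠ r : ℕ in Filter.atTop, (1 + (2 * c : ℝ) / r) ^ d - (1 - (2 * c : ℝ) / r) ^ d < ε :=
    h1.eventually (gt_mem_nhds (by simpa using hε))
  obtain ⟨r, hr, hr2⟩ := (h2.and (Filter.eventually_gt_atTop (2 * c))).exists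
  refine ⟨r, hr2, ?_⟩
  have hr0 : (0 : ℝ) < r := by exact_mod_cast (by omega : 0 < r)
  have e1 : (r : ℝ) + 2 * c = (1 + (2 * c : ℝ) / r) * r := by field_simp
  have e2 : (r : ℝ) - 2 * c = (1 - (2 * c : ℝ) / r) * r := by field_simp
  rw [e1, e2, mul_pow, mul_pow, ← add_mul]
  exact mul_le_mul_of_nonneg_right (by linarith) (by positivity)

theorem pf_card_box {I : Type} [Fintype I] [DecidableEq I] (a b : ℤ) (h : a ≤ b) :
    ((Fintype.piFinset fun _ : I => Finset.Ico a b).card : ℝ) = ((b : ℝ) - a) ^ Fintype.card I := by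
  rw [Fintype.card_piFinset, Finset.prod_const, Finset.card_univ, Int.card_Ico]
  have : (((b - a).toNat : ℕ) : ℝ) = (b : ℝ) - a := by
    have h1 : (((b - a).toNat : ℕ) : ℤ) = b - a := Int.toNat_of_nonneg (by omega)
    have h2 : ((((b - a).toNat : ℕ) : ℤ) : ℝ) = ((b - a : ℤ) : ℝ) := by rw [h1]
    rw [Int.cast_natCast, Int.cast_sub] at h2
    exact h2
  rw [Nat.cast_pow, this]

/-- Boxes `[0, r) ^ I` are Følner sets: with `c` a bound for the coordinates of the elements of `C`, take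
`Um = [c, r - c) ^ I` and `Up = [-c, r + c) ^ I`. -/
theorem folner_box {I : Type} [Fintype I] [DecidableEq I] (C : Finset (I → ℤ)) {ε : ℝ} (hε : 0 < ε) :
    ∃ Um U Up : Finset (I → ℤ), U.Nonempty ∧ Um ⊆ U ∧ U ⊆ Up ∧ (∀ x ∈ Um, ∀ c ∈ C, x + c ∈ U) ∧
      (∀ x ∈ U, ∀ c ∈ C, x + c ∈ Up) ∧ (Up.card : ℝ) ≤ Um.card + ε * U.card := by
  obtain ⟨c, hc⟩ : ∃ c : ℕ, ∀ x ∈ C, ∀ i, -(c : ℤ) ≤ x i ∧ x i ≤ c := by
    refine ⟨C.sup fun x => Finset.univ.sup fun i => (x i).natAbs, fun x hx i => ?_⟩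
    have h1 : (x i).natAbs ≤ Finset.univ.sup fun i => (x i).natAbs :=
      Finset.le_sup (f := fun i => (x i).natAbs) (Finset.mem_univ i)
    have h2 : (Finset.univ.sup fun i => (x i).natAbs) ≤ C.sup fun x => Finset.univ.sup fun i => (x i).natAbs :=
      Finset.le_sup (f := fun x : I → ℤ => Finset.univ.sup fun i => (x i).natAbs) hx
    omega
  obtain ⟨r, hr, hr2⟩ := pf_small (Fintype.card I) c hε
  refine ⟨Fintype.piFinset fun _ => Finset.Ico (c : ℤ) (r - c), Fintype.piFinset fun _ => Finset.Ico (0 : ℤ) r,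
    Fintype.piFinset fun _ => Finset.Ico (-c : ℤ) (r + c), ⟨fun _ => 0, ?_⟩, ?_, ?_, ?_, ?_, ?_⟩
  · simp only [Fintype.mem_piFinset, Finset.mem_Ico]
    intro _
    omega
  · intro x hx
    simp only [Fintype.mem_piFinset, Finset.mem_Ico] at hx ⊢
    intro i
    have := hx i
    omega
  · intro x hx
    simp only [Fintype.mem_piFinset, Finset.mem_Ico] at hx ⊢
    intro i
    have := hx i
    omega
  · intro x hx y hy
    simp only [Fintype.mem_piFinset, Finset.mem_Ico, Pi.add_apply] at hx ⊢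
    intro i
    have := hx i
    have := hc y hy i
    omega
  · intro x hx y hy
    simp only [Fintype.mem_piFinset, Finset.mem_Ico, Pi.add_apply] at hx ⊢
    intro i
    have := hx i
    have := hc y hy i
    omega
  · rw [pf_card_box _ _ (by omega), pf_card_box _ _ (by omega), pf_card_box _ _ (by omega)]
    push_cast
    have e1 : (r : ℝ) + c - -c = r + 2 * c := by ring
    have e2 : (r : ℝ) - c - c = r - 2 * c := by ring
    rw [e1, e2, sub_zero]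
    exact hr2

theorem pf_sum_sub {α W : Type} [NormedAddCommGroup W] {A T : Finset α} (h : A ⊆ T) (g : α → W) {M : ℝ}
    (hM : ∀ ω ∈ T, ‖g ω‖ ≤ M) : ‖∑ ω ∈ T, g ω - ∑ ω ∈ A, g ω‖ ≤ M * ((T.card : ℝ) - A.card) := by
  classical
  rw [← Finset.sum_sdiff h, add_sub_cancel_right]
  refine (norm_sum_le _ _).trans ?_
  refine (Finset.sum_le_card_nsmul _ _ M fun ω hω => hM ω (Finset.mem_sdiff.1 hω).1).trans ?_
  rw [nsmul_eq_mul, Finset.card_sdiff_of_subset h, Nat.cast_sub (Finset.card_le_card h), mul_comm]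

/-- Averaging.  `J` is a finite set of sheets, `(x, l) ↦ (x + dl l, π l)` a shift of `(I → ℤ) × J`, and `G` a bounded
displacement.  Let `A` be the set of the points `ω = (x, l)` with `x + G ω ∈ U`.  Then `A` contains `Um × J` and lies
in `Up × J` (here `C` is closed under negation), and the sum of `f (G (shift ω)) - f (G ω)` over `A` telescopes up to
boundary terms: both `A` and its image under the (injective) shift contain `Um' × J` for the smaller box and lie in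
`Up' × J`.  The statement asks for a set `Rg` outside which nothing is known about `G`. -/
theorem folner_average {I W : Type} [Fintype I] [DecidableEq I] [NormedAddCommGroup W] [NormedSpace ℝ W]
    (f : (I → ℤ) → W) (hf : ∀ x y, f (x + y) = f x + f y) (C : Finset (I → ℤ)) (n : ℕ) {ε : ℝ} (hε : 0 < ε) :
    ∃ U Rg : Finset (I → ℤ), U.Nonempty ∧ (∀ x ∈ U, ∀ c ∈ C, ∀ c' ∈ C, x - c ∈ Rg ∧ x - c + c' ∈ Rg) ∧
      ∀ (J : Type) [Fintype J] (dl : J → I → ℤ) (π : J → J) (G : (I → ℤ) × J → I → ℤ) (A : Finset ((I → ℤ) × J)),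
        Fintype.card J ≤ n → Function.Injective π → (∀ l, dl l ∈ C) → (∀ ω : (I → ℤ) × J, ω.1 ∈ Rg → G ω ∈ C) →
        (∀ ω : (I → ℤ) × J, ω ∈ A ↔ ω.1 ∈ Rg ∧ ω.1 + G ω ∈ U) →
        |(A.card : ℝ) - U.card * Fintype.card J| ≤ ε * U.card ∧
          ‖∑ ω ∈ A, f (dl ω.2 + G (ω.1 + dl ω.2, π ω.2) - G ω) - (U.card : ℝ) • ∑ l, f (dl l)‖ ≤ ε * U.card := by
  classical
  obtain ⟨M, hM0, hM⟩ : ∃ M : ℝ, 0 ≤ M ∧ ∀ c ∈ C, ‖f c‖ ≤ M :=
    ⟨∑ c ∈ C, ‖f c‖, Finset.sum_nonneg fun _ _ => norm_nonneg _, fun c hc =>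
      Finset.single_le_sum (f := fun c => ‖f c‖) (fun _ _ => norm_nonneg _) hc⟩
  have hden : (0 : ℝ) < (4 * M + 1) * (n + 1) := by positivity
  obtain ⟨Um, U, Up, hne, h1, h2, h3, h4, h5⟩ :=
    folner_box (C ∪ C.image (fun c => -c) ∪ (C ×ˢ C).image fun p => -p.1 + p.2) (div_pos hε hden)
  have hR : ∀ x ∈ U, ∀ c ∈ C, ∀ c' ∈ C, x - c ∈ Up ∧ x - c + c' ∈ Up := by
    intro x hx c hc c' hc'
    constructor
    · rw [sub_eq_add_neg]
      exact h4 x hx _ (Finset.mem_union_left _ (Finset.mem_union_right _ (Finset.mem_image_of_mem _ hc)))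
    · rw [sub_eq_add_neg, add_assoc]
      exact h4 x hx _ (Finset.mem_union_right _
        (Finset.mem_image.2 ⟨(c, c'), Finset.mem_product.2 ⟨hc, hc'⟩, rfl⟩))
  refine ⟨U, Up, hne, hR, ?_⟩
  intro J _ dl π G A hJ hπ hdl hG hA
  have hsub : ∀ x y, f (x - y) = f x - f y := by
    intro x y
    rw [eq_sub_iff_add_eq, ← hf, sub_add_cancel]
  set T : Finset ((I → ℤ) × J) := Up ×ˢ Finset.univ with hT
  have hmemT : ∀ ω : (I → ℤ) × J, ω ∈ T ↔ ω.1 ∈ Up := by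
    intro ω
    simp [hT]
  have hAT : A ⊆ T := fun ω hω => (hmemT ω).2 ((hA ω).1 hω).1
  have hSA : Um ×ˢ (Finset.univ : Finset J) ⊆ A := by
    intro ω hω
    have hx : ω.1 ∈ Um := (Finset.mem_product.1 hω).1
    have hx' : ω.1 ∈ Up := h2 (h1 hx)
    exact (hA ω).2 ⟨hx', h3 _ hx _ (Finset.mem_union_left _ (Finset.mem_union_left _ (hG ω hx')))⟩
  have hUT : U ×ˢ (Finset.univ : Finset J) ⊆ T := fun ω hω => (hmemT ω).2 (h2 (Finset.mem_product.1 hω).1)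
  let sh : (I → ℤ) × J → (I → ℤ) × J := fun ω => (ω.1 + dl ω.2, π ω.2)
  have hsh : Function.Injective sh := by
    rintro ⟨x, l⟩ ⟨y, l'⟩ h
    simp only [sh, Prod.mk.injEq] at h
    obtain rfl := hπ h.2
    rw [add_right_cancel h.1]
  have hBT : A.image sh ⊆ T := by
    intro ω' hω'
    obtain ⟨ω, hω, rfl⟩ := Finset.mem_image.1 hω'
    obtain ⟨ha, hb⟩ := (hA ω).1 hω
    have := (hR _ hb _ (hG ω ha) _ (hdl ω.2)).2
    rw [add_sub_cancel_right] at this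
    exact (hmemT _).2 this
  have cT : (T.card : ℝ) = Up.card * Fintype.card J := by simp [hT]
  have cU : ((U ×ˢ (Finset.univ : Finset J)).card : ℝ) = U.card * Fintype.card J := by simp
  have cB : ((A.image sh).card : ℝ) = A.card := by rw [Finset.card_image_of_injective _ hsh]
  have cA1 : (Um.card : ℝ) * Fintype.card J ≤ A.card := by
    have := Finset.card_le_card hSA
    rw [Finset.card_product, Finset.card_univ] at this
    exact_mod_cast this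
  have cA2 : (A.card : ℝ) ≤ Up.card * Fintype.card J := by
    rw [← cT]
    exact_mod_cast Finset.card_le_card hAT
  have c1 : (Um.card : ℝ) ≤ U.card := by exact_mod_cast Finset.card_le_card h1
  have c2 : (U.card : ℝ) ≤ Up.card := by exact_mod_cast Finset.card_le_card h2
  have hJ0 : (0 : ℝ) ≤ Fintype.card J := Nat.cast_nonneg _
  have hJn : (Fintype.card J : ℝ) ≤ n + 1 := by exact_mod_cast hJ.trans (Nat.le_succ n)
  have hU0 : (0 : ℝ) ≤ U.card := Nat.cast_nonneg _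
  obtain ⟨δ, hδ⟩ : ∃ δ : ℝ, δ = ((Up.card : ℝ) - Um.card) * Fintype.card J := ⟨_, rfl⟩
  have hδ0 : 0 ≤ δ := by
    rw [hδ]
    exact mul_nonneg (by linarith) hJ0
  have hδ1 : (4 * M + 1) * δ ≤ ε * U.card := by
    have a1 : δ ≤ ε / ((4 * M + 1) * (n + 1)) * U.card * (n + 1) := by
      rw [hδ]
      exact mul_le_mul (by linarith) hJn hJ0 (by positivity)
    have a2 : (4 * M + 1) * (ε / ((4 * M + 1) * (n + 1)) * U.card * (n + 1)) = ε * U.card := by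
      field_simp
    rw [← a2]
    exact mul_le_mul_of_nonneg_left a1 (by positivity)
  have hMδ : 0 ≤ M * δ := mul_nonneg hM0 hδ0
  have d1 : (T.card : ℝ) - A.card ≤ δ := by
    rw [cT, hδ, sub_mul]
    linarith
  have m1 := mul_le_mul_of_nonneg_right c1 hJ0
  have m2 := mul_le_mul_of_nonneg_right c2 hJ0
  have d2 : (T.card : ℝ) - U.card * Fintype.card J ≤ δ := by
    rw [cT, hδ, sub_mul]
    linarith
  constructor
  · rw [abs_le]
    rw [cT] at d1 d2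
    constructor <;> linarith
  · have s1 := pf_sum_sub hAT (fun ω => f (dl ω.2)) (fun ω _ => hM _ (hdl ω.2))
    have s2 := pf_sum_sub hUT (fun ω => f (dl ω.2)) (fun ω _ => hM _ (hdl ω.2))
    have s3 := pf_sum_sub hAT (fun ω => f (G ω)) (fun ω hω => hM _ (hG ω ((hmemT ω).1 hω)))
    have s4 := pf_sum_sub hBT (fun ω => f (G ω)) (fun ω hω => hM _ (hG ω ((hmemT ω).1 hω)))
    rw [cU] at s2
    rw [cB, Finset.sum_image fun _ _ _ _ h => hsh h] at s4
    have e1 : (U.card : ℝ) • ∑ l, f (dl l) = ∑ ω ∈ U ×ˢ (Finset.univ : Finset J), f (dl ω.2) := by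
      rw [Finset.sum_product]
      simp only [Finset.sum_const, Nat.cast_smul_eq_nsmul]
    have e2 : ∑ ω ∈ A, f (dl ω.2 + G (ω.1 + dl ω.2, π ω.2) - G ω) =
        ∑ ω ∈ A, f (dl ω.2) + ∑ ω ∈ A, f (G (sh ω)) - ∑ ω ∈ A, f (G ω) := by
      rw [← Finset.sum_add_distrib, ← Finset.sum_sub_distrib]
      exact Finset.sum_congr rfl fun ω _ => by rw [hsub, hf]
    rw [e1, e2]
    have key : ∀ a b c d p q : W, ‖a + b - c - d‖ ≤ ‖p - a‖ + ‖p - d‖ + ‖q - c‖ + ‖q - b‖ := by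
      intro a b c d p q
      have : a + b - c - d = -(p - a) + (p - d) + (q - c) - (q - b) := by abel
      rw [this]
      refine (norm_sub_le _ _).trans (add_le_add_left ?_ _)
      refine (norm_add_le _ _).trans (add_le_add_left ?_ _)
      refine (norm_add_le _ _).trans (add_le_add_left ?_ _)
      rw [norm_neg]
    refine (key _ _ _ _ (∑ ω ∈ T, f (dl ω.2)) (∑ ω ∈ T, f (G ω))).trans ?_
    have t1 := mul_le_mul_of_nonneg_left d1 hM0
    have t2 := mul_le_mul_of_nonneg_left d2 hM0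
    linarith

/-- compactness of `[0, 1] ^ X` -/
theorem limit_weights {X W : Type} [Fintype X] [NormedAddCommGroup W] [NormedSpace ℝ W] (N : ℕ → X → ℝ)
    (ψ : X → W) (a : ℕ → ℝ) (v : ℕ → W)
    (h : ∀ (m : ℕ) (ε : ℝ), 0 < ε → ∃ ν : X → ℝ, (∀ x, 0 ≤ ν x ∧ ν x ≤ 1) ∧ ∀ j, j ≤ m →
      ∑ x, ν x * N j x ≤ a j + ε ∧ ‖∑ x, (ν x * N j x) • ψ x - v j‖ ≤ ε) :
    ∃ ν : X → ℝ, (∀ x, 0 ≤ ν x) ∧ ∀ j, ∑ x, ν x * N j x ≤ a j ∧ ∑ x, (ν x * N j x) • ψ x = v j := by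
  choose ν hν hν' using fun m : ℕ => h m (1 / ((m : ℝ) + 1)) (by positivity)
  have hK : IsCompact (Set.pi Set.univ fun _ : X => Set.Icc (0 : ℝ) 1) :=
    isCompact_univ_pi fun _ => isCompact_Icc
  obtain ⟨μ, hμ, φ, hφ, hlim⟩ := hK.tendsto_subseq (x := ν) fun m x _ => hν m x
  have hx : ∀ x, Filter.Tendsto (fun m => ν (φ m) x) Filter.atTop (nhds (μ x)) := fun x =>
    ((continuous_apply x).tendsto μ).comp hlim
  have h0 : Filter.Tendsto (fun m => 1 / ((φ m : ℝ) + 1)) Filter.atTop (nhds 0) :=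
    tendsto_one_div_add_atTop_nhds_zero_nat.comp hφ.tendsto_atTop
  refine ⟨μ, fun x => (hμ x trivial).1, fun j => ?_⟩
  have hev : ∀ᶠ m in Filter.atTop, j ≤ φ m := hφ.tendsto_atTop.eventually (Filter.eventually_ge_atTop j)
  constructor
  · have t1 : Filter.Tendsto (fun m => ∑ x, ν (φ m) x * N j x) Filter.atTop (nhds (∑ x, μ x * N j x)) :=
      tendsto_finsetSum _ fun x _ => (hx x).mul_const _
    have t2 : Filter.Tendsto (fun m => a j + 1 / ((φ m : ℝ) + 1)) Filter.atTop (nhds (a j + 0)) :=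
      h0.const_add _
    rw [add_zero] at t2
    exact le_of_tendsto_of_tendsto t1 t2 (hev.mono fun m hm => (hν' (φ m) j hm).1)
  · have t1 : Filter.Tendsto (fun m => ‖∑ x, (ν (φ m) x * N j x) • ψ x - v j‖) Filter.atTop
        (nhds ‖∑ x, (μ x * N j x) • ψ x - v j‖) :=
      ((tendsto_finsetSum _ fun x _ => ((hx x).mul_const _).smul_const _).sub_const _).norm
    have := le_of_tendsto_of_tendsto t1 h0 (hev.mono fun m hm => (hν' (φ m) j hm).2)
    exact sub_eq_zero.1 (norm_le_zero_iff.1 this)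

end Pool.Agent.MP_6674cc_al

/-! Abstract counting lemmas. -/

namespace Pool.Agent.MP_6674cc_al

open Finset

theorem sum_fibers {α Ξ T W : Type} [AddCommMonoid W] (A : Finset α) (X₀ : Finset Ξ) (Fb : Ξ → Finset T)
    (φ : α → Ξ) (θ : α → T) (h1 : ∀ a ∈ A, φ a ∈ X₀ ∧ θ a ∈ Fb (φ a))
    (hinj : ∀ a ∈ A, ∀ b ∈ A, φ a = φ b → θ a = θ b → a = b)
    (hsurj : ∀ ξ ∈ X₀, ∀ t ∈ Fb ξ, ∃ a ∈ A, φ a = ξ ∧ θ a = t) (F : Ξ → W) :
    ∑ a ∈ A, F (φ a) = ∑ ξ ∈ X₀, (Fb ξ).card • F ξ := by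
  classical
  rw [← sum_fiberwise_of_maps_to (g := φ) (fun a ha => (h1 a ha).1)]
  refine sum_congr rfl fun ξ hξ => ?_
  rw [sum_congr rfl (g := fun _ => F ξ) fun a ha => by rw [(mem_filter.1 ha).2], sum_const]
  congr 1
  refine card_bij (fun a _ => θ a) (fun a ha => ?_) (fun a ha b hb h => ?_) (fun t ht => ?_)
  · obtain ⟨h2, rfl⟩ := mem_filter.1 ha
    exact (h1 a h2).2
  · exact hinj a (mem_filter.1 ha).1 b (mem_filter.1 hb).1 ((mem_filter.1 ha).2.trans (mem_filter.1 hb).2.symm) h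
  · obtain ⟨a, h2, h3, h4⟩ := hsurj ξ hξ t ht
    exact ⟨a, mem_filter.2 ⟨h2, h3⟩, h4⟩

theorem pf_weighted {X W : Type} [Fintype X] [NormedAddCommGroup W] [InnerProductSpace ℝ W] [FiniteDimensional ℝ W]
    (R : W ≃ₗᵢ[ℝ] W) (W₀ : Submodule ℝ W) (hW : ∀ v ∈ W₀, R.symm v ∈ W₀) (B : X → X → ℝ) (hB : ∀ x y, 0 ≤ B x y)
    (N : ℕ → X → ℝ) (hN : ∀ j x, 0 ≤ N j x) (hrec : ∀ j x, N (j + 1) x = ∑ y, B x y * N j y)
    (hpos : ∀ x, ∃ i, 0 < N i x) (ψ : X → W) (hψ : ∀ x, ψ x ∈ W₀) (u : W) (hu : u ≠ 0) {a : ℝ} (ha : 0 < a)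
    (ν : X → ℝ) (hν : ∀ x, 0 ≤ ν x) (hbd : ∀ j, ∑ x, ν x * N j x ≤ a ^ j)
    (hsum : ∀ j, ∑ x, (ν x * N j x) • ψ x = a ^ j • (R ^ j) u) :
    ∃ v ∈ W₀, v ≠ 0 ∧ ∃ m : ℕ, 0 < m ∧ (R ^ m) v = v := by
  classical
  let p : X → Prop := fun x => ∃ C, ∀ j, N j x / a ^ j ≤ C
  have hsub : ∀ {E : Type} [AddCommMonoid E] (F : X → E), (∀ x, ¬p x → F x = 0) →
      ∑ x : Subtype p, F x = ∑ x, F x := by
    intro E _ F hF
    rw [← Fintype.sum_subtype_add_sum_subtype p F, sum_eq_zero (s := univ) (f := fun x : {x // ¬p x} => F x)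
      fun x _ => hF x x.2, add_zero]
  have hcl : ∀ x y, p x → ¬p y → B x y = 0 := by
    rintro x y ⟨C, hC⟩ hy
    by_contra hne
    have hpos' : 0 < B x y := lt_of_le_of_ne (hB x y) (Ne.symm hne)
    refine hy ⟨C * a / B x y, fun j => ?_⟩
    have h1 : B x y * N j y ≤ N (j + 1) x := by
      rw [hrec]
      exact single_le_sum (f := fun y => B x y * N j y) (fun y _ => mul_nonneg (hB x y) (hN j y)) (mem_univ y)
    have h2 := hC (j + 1)
    have h3 : 0 < a ^ j := pow_pos ha j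
    rw [div_le_iff₀ (pow_pos ha _)] at h2
    rw [div_le_div_iff₀ h3 hpos']
    calc N j y * B x y ≤ C * a ^ (j + 1) := by rw [mul_comm]; exact h1.trans h2
      _ = C * a * a ^ j := by ring
  have hz : ∀ x, ¬p x → ν x = 0 := by
    intro x hx
    by_contra hne
    have hpos' : 0 < ν x := lt_of_le_of_ne (hν x) (Ne.symm hne)
    refine hx ⟨1 / ν x, fun j => ?_⟩
    have h1 : ν x * N j x ≤ a ^ j :=
      (single_le_sum (f := fun x => ν x * N j x) (fun y _ => mul_nonneg (hν y) (hN j y)) (mem_univ x)).trans (hbd j)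
    rw [div_le_div_iff₀ (pow_pos ha j) hpos', one_mul, mul_comm]
    exact h1
  refine pf_periodic (X := Subtype p) R W₀ hW (fun x y => B x y / a) (fun x y => div_nonneg (hB x y) ha.le)
    (fun j x => N j x / a ^ j) (fun j x => div_nonneg (hN j x) (pow_pos ha j).le) (fun j x => ?_)
    (fun x => ?_) (fun x => x.2) (fun x => ν x • ψ x) (fun x => W₀.smul_mem _ (hψ x)) u hu fun j => ?_
  · rw [hsub (fun y => B x y / a * (N j y / a ^ j)) fun y hy => by rw [hcl x y x.2 hy]; simp, hrec, sum_div]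
    refine sum_congr rfl fun y _ => ?_
    rw [pow_succ']
    exact (div_mul_div_comm _ _ _ _).symm
  · obtain ⟨i, hi⟩ := hpos x
    exact ⟨i, div_pos hi (pow_pos ha i)⟩
  · rw [hsub (fun x => (N j x / a ^ j) • ν x • ψ x) fun y hy => by rw [hz y hy]; simp]
    have h1 : a ^ j ≠ 0 := (pow_pos ha j).ne'
    rw [← inv_smul_smul₀ h1 ((R ^ j) u), ← hsum, smul_sum]
    refine sum_congr rfl fun y _ => ?_
    rw [smul_smul, smul_smul]
    congr 1
    ring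

theorem pf_finset {Ξ W : Type} [NormedAddCommGroup W] [InnerProductSpace ℝ W] [FiniteDimensional ℝ W]
    (R : W ≃ₗᵢ[ℝ] W) {P : ℕ} (hP : ∀ v, (∃ m : ℕ, 0 < m ∧ (R ^ m) v = v) → (R ^ P) v = v) (X₀ : Finset Ξ)
    (B : Ξ → Ξ → ℕ) (N : ℕ → Ξ → ℕ) (hrec : ∀ j, ∀ x ∈ X₀, N (j + 1) x = ∑ y ∈ X₀, B x y * N j y)
    (hpos : ∀ x ∈ X₀, ∃ i, 0 < N i x) (ψ : Ξ → W) (u : W) {a : ℝ} (ha : 0 < a)
    (h : ∀ (m : ℕ) (ε : ℝ), 0 < ε → ∃ ν : Ξ → ℝ, (∀ x, 0 ≤ ν x ∧ ν x ≤ 1) ∧ ∀ j, j ≤ m →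
      ∑ x ∈ X₀, ν x * N j x ≤ a ^ j + ε ∧ ‖∑ x ∈ X₀, (ν x * N j x) • ψ x - a ^ j • (R ^ j) u‖ ≤ ε) :
    (R ^ P) u = u := by
  by_contra hu
  obtain ⟨ν, h1, h2⟩ := limit_weights (X := X₀) (fun j x => (N j x : ℝ)) (fun x => ψ x) (fun j => a ^ j)
    (fun j => a ^ j • (R ^ j) u) fun m ε hε => by
      obtain ⟨ν, h1, h2⟩ := h m ε hε
      refine ⟨fun x => ν x, fun x => h1 x, fun j hj => ?_⟩
      rw [sum_coe_sort X₀ fun x => ν x * N j x, sum_coe_sort X₀ fun x => (ν x * N j x) • ψ x]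
      exact h2 j hj
  let Q : W →ₗ[ℝ] W := (R ^ P).toLinearEquiv.toLinearMap - LinearMap.id
  have hQ : ∀ v, Q v = (R ^ P) v - v := fun v => rfl
  have hc : ∀ (j : ℕ) v, (R ^ P) ((R ^ j) v) = (R ^ j) ((R ^ P) v) := fun j v => by
    change (R ^ P * R ^ j) v = (R ^ j * R ^ P) v
    rw [← pow_add, ← pow_add, add_comm]
  obtain ⟨v, ⟨w, rfl⟩, hv, hper⟩ := pf_weighted (X := X₀) R (LinearMap.range Q) (by
      rintro _ ⟨w, rfl⟩
      refine ⟨R.symm w, R.injective ?_⟩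
      have := hc 1 (R.symm w)
      rw [pow_one] at this
      rw [hQ, hQ, map_sub, ← this, R.apply_symm_apply, R.apply_symm_apply])
    (fun x y => (B x y : ℝ)) (fun x y => Nat.cast_nonneg _) (fun j x => (N j x : ℝ)) (fun j x => Nat.cast_nonneg _)
    (fun j x => by
      rw [hrec j x x.2, sum_coe_sort X₀ fun y => (B x y : ℝ) * N j y]
      push_cast
      rfl)
    (fun x => by
      obtain ⟨i, hi⟩ := hpos x x.2
      exact ⟨i, by exact_mod_cast hi⟩)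
    (fun x => Q (ψ x)) (fun x => ⟨_, rfl⟩) (Q u) (fun h => hu (sub_eq_zero.1 h)) ha ν h1 (fun j => (h2 j).1)
    fun j => by
      have h3 := congrArg Q (h2 j).2
      rw [map_sum, map_smul, hQ, hc, ← map_sub, ← hQ] at h3
      simpa only [map_smul] using h3
  have h3 := hP _ hper
  refine hv ((inner_self_eq_zero (𝕜 := ℝ)).1 ?_)
  calc inner ℝ (Q w) (Q w) = inner ℝ (Q w) ((R ^ P) w) - inner ℝ (Q w) w := by rw [← inner_sub_right, ← hQ]
    _ = 0 := by rw [← (R ^ P).inner_map_map (Q w) w, h3, sub_self]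

end Pool.Agent.MP_6674cc_al
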